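import Pool.Agent.H45.NoConf

/-!
# A field whose `w`-invariant is greater than three

The field is the rational function field `ℚ(v)(u)(X)(Z)` in four variables. The form
`⟨-(3 u + 7 v + 1) (1 + Z ^ 2), u (1 + X ^ 2), v, 1⟩` is minimal weakly isotropic.
-/

namespace Pool.Agent.Results.MP_2416ca_nt.WInvariantAboveThree

section Definitions

variable {K : Type*} [Field K]

/-- A quadratic form on `K ^ n` is regular if its polar bilinear form
`(x, y) ↦ φ (x + y) - φ x - φ y` is nondegenerate. This is twice the associated symmetric bilinear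
form. -/
def IsRegular {n : ℕ} (φ : QuadraticForm K (Fin n → K)) : Prop :=
  φ.polarBilin.Nondegenerate

/-- `copies N φ` is the orthogonal sum `N × φ` of `N` copies of `φ`. -/
def copies {n : ℕ} (N : ℕ) (φ : QuadraticForm K (Fin n → K)) :
    QuadraticForm K (Fin N → Fin n → K) :=
  QuadraticMap.pi fun _ => φ

/-- `φ` is weakly isotropic if `N × φ` is isotropic for some natural number `N`. -/
def WeaklyIsotropic {n : ℕ} (φ : QuadraticForm K (Fin n → K)) : Prop :=
  ∃ N : ℕ, ∃ x : Fin N → Fin n → K, x ≠ 0 ∧ copies N φ x = 0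

/-- `ψ` is a subform of `φ` if `φ` is isometric to `ψ ⊥ χ` for some form `χ`. -/
def IsSubform {m n : ℕ} (ψ : QuadraticForm K (Fin m → K)) (φ : QuadraticForm K (Fin n → K)) :
    Prop :=
  ∃ (k : ℕ) (χ : QuadraticForm K (Fin k → K)), φ.Equivalent (ψ.prod χ)

/-- `φ` is minimal weakly isotropic: it is regular and weakly isotropic, and no subform of smaller
dimension is weakly isotropic. -/
def MinimalWeaklyIsotropic {n : ℕ} (φ : QuadraticForm K (Fin n → K)) : Prop :=
  IsRegular φ ∧ WeaklyIsotropic φ ∧
    ∀ (m : ℕ) (ψ : QuadraticForm K (Fin m → K)), m < n → IsSubform ψ φ → ¬ WeaklyIsotropic ψ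

end Definitions

/-- The `w`-invariant: the supremum of the dimensions of minimal weakly isotropic forms. -/
noncomputable def wInvariant (K : Type*) [Field K] : ℕ∞ :=
  sSup {d : ℕ∞ | ∃ (n : ℕ) (φ : QuadraticForm K (Fin n → K)), MinimalWeaklyIsotropic φ ∧ d = n}

open Pool.Agent.H45

/-- the parameters `Z, X, 0, 0` -/
noncomputable def tt : Fin 4 → F4 := ![RatFunc.X, RatFunc.C RatFunc.X, 0, 0]

/-- the weights of the form -/
noncomputable def wt (i : Fin 4) : F4 := RatFunc.C (RatFunc.C (coef i)) * (1 + tt i ^ 2)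

/-- the form -/
noncomputable def phi : QuadraticForm F4 (Fin 4 → F4) := QuadraticMap.weightedSumSquares F4 wt

theorem phi_apply (x : Fin 4 → F4) : phi x = ∑ i, wt i * x i ^ 2 := by
  simp only [phi, QuadraticMap.weightedSumSquares_apply, smul_eq_mul, pow_two]

theorem FR_F4 : FR F4 := OR_ratFunc OR_F3 F4 (by rw [Module.finrank_self]; decide)

theorem coef_ne (i : Fin 4) : coef i ≠ 0 := by
  intro h
  have h1 : ∑ j, algebraMap F2 F2 (coef j) * (if j = i then (1 : F2) else 0) = 0 := by
    simp only [Algebra.algebraMap_self, RingHom.id_apply, mul_ite, mul_one, mul_zero,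
      Finset.sum_ite_eq', Finset.mem_univ, if_true]
    exact h
  obtain ⟨j, hj⟩ : ∃ j : Fin 4, j ≠ i := exists_ne i
  have h2 := C1_F2 (E := F2) (by rw [Module.finrank_self]; decide)
    (fun j => if j = i then (1 : F2) else 0) (fun j => by
      by_cases hji : j = i
      · simp only [hji, if_true]
        exact ⟨1, fun _ => 1, by simp⟩
      · simp only [hji, if_false]
        exact SSq.zero) h1 ⟨i, by simp⟩ j
  simp [hj] at h2

theorem wt_ne (i : Fin 4) : wt i ≠ 0 := by
  refine mul_ne_zero ?_ (FR_F4.one_add_sq_ne _)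
  rw [Ne, map_eq_zero, map_eq_zero]
  exact coef_ne i

theorem two_ne : (2 : F4) ≠ 0 := by
  have := charZero_F4
  exact two_ne_zero

theorem regular_phi : IsRegular phi := by
  have h : ∀ (x : Fin 4 → F4) (i : Fin 4),
      QuadraticMap.polar phi x (Pi.single i 1) = 2 * wt i * x i := by
    intro x i
    have h1 : ∀ j, wt j * (x + (Pi.single i 1 : Fin 4 → F4)) j ^ 2 - wt j * x j ^ 2
          - wt j * (Pi.single i 1 : Fin 4 → F4) j ^ 2
        = if j = i then 2 * wt i * x i else 0 := by
      intro j
      by_cases hj : j = i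
      · subst hj
        simp only [Pi.add_apply, Pi.single_eq_same, if_true]
        ring
      · simp only [Pi.add_apply, Pi.single_eq_of_ne hj, hj, if_false]
        ring
    unfold QuadraticMap.polar
    rw [phi_apply, phi_apply, phi_apply, ← Finset.sum_sub_distrib, ← Finset.sum_sub_distrib,
      Finset.sum_congr rfl fun j _ => h1 j]
    simp
  have hx : ∀ x : Fin 4 → F4, (∀ i, 2 * wt i * x i = 0) → x = 0 := by
    intro x hx
    funext i
    exact (mul_eq_zero.1 (hx i)).resolve_left (mul_ne_zero two_ne (wt_ne i))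
  constructor
  · intro x hx0
    apply hx
    intro i
    rw [← h x i]
    exact hx0 (Pi.single i 1)
  · intro x hx0
    apply hx
    intro i
    rw [← h x i, QuadraticMap.polar_comm]
    exact hx0 (Pi.single i 1)

/-- the isotropic vector of `6 × φ` -/
noncomputable def vec : Fin 6 → Fin 4 → F4 := fun s =>
  ![(![RatFunc.X, 1, 0, 0, 0, 0] : Fin 6 → F4) s / (1 + RatFunc.X ^ 2),
    (![RatFunc.C RatFunc.X, 1, RatFunc.C RatFunc.X, 1, RatFunc.C RatFunc.X, 1] : Fin 6 → F4) s
      / (1 + RatFunc.C RatFunc.X ^ 2),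
    (![2, 1, 1, 1, 0, 0] : Fin 6 → F4) s,
    (![1, 0, 0, 0, 0, 0] : Fin 6 → F4) s]

theorem weaklyIsotropic_phi : WeaklyIsotropic phi := by
  refine ⟨6, vec, ?_, ?_⟩
  · intro h
    have h1 := congrFun (congrFun h 0) 3
    simp [vec] at h1
  · have h0 : (1 + (RatFunc.X : F4) ^ 2) ≠ 0 := FR_F4.one_add_sq_ne _
    have h1 : (1 + (RatFunc.C RatFunc.X : F4) ^ 2) ≠ 0 := FR_F4.one_add_sq_ne _
    simp only [copies, QuadraticMap.pi_apply, phi_apply, wt, tt, coef, vec, Fin.sum_univ_succ,
      Fin.sum_univ_zero, Matrix.cons_val_zero, Matrix.cons_val_succ,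
      map_neg, map_add, map_mul, map_one, map_ofNat]
    field_simp
    ring

/-- no subform of dimension less than four is weakly isotropic -/
theorem minimal_phi (m : ℕ) (ψ : QuadraticForm F4 (Fin m → F4)) (hm : m < 4)
    (hψ : IsSubform ψ phi) : ¬ WeaklyIsotropic ψ := by
  obtain ⟨k, χ, ⟨e⟩⟩ := hψ
  rintro ⟨N, z, hz, hiso⟩
  let f : (Fin m → F4) →ₗ[F4] (Fin 4 → F4) :=
    e.symm.toLinearEquiv.toLinearMap ∘ₗ LinearMap.inl F4 (Fin m → F4) (Fin k → F4)
  have hf : ∀ x, phi (f x) = ψ x := by
    intro x
    have h := e.symm.map_app (x, 0)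
    simp only [QuadraticMap.prod_apply, QuadraticMap.map_zero, add_zero] at h
    rw [← h]
    rfl
  have hfinj : Function.Injective f :=
    e.symm.toLinearEquiv.injective.comp LinearMap.inl_injective
  have hrange : LinearMap.range f < ⊤ := by
    rw [lt_top_iff_ne_top]
    intro htop
    have h1 : Module.finrank F4 (LinearMap.range f) ≤ Module.finrank F4 (Fin m → F4) :=
      LinearMap.finrank_range_le f
    rw [htop, finrank_top, Module.finrank_fin_fun, Module.finrank_fin_fun] at h1
    omega
  obtain ⟨l, hl, hle⟩ := Submodule.exists_le_ker_of_lt_top _ hrange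
  let y : Fin 4 → F4 := fun i => l fun j => if i = j then 1 else 0
  have hly : ∀ x : Fin 4 → F4, l x = ∑ i, y i * x i := by
    intro x
    rw [LinearMap.pi_apply_eq_sum_univ l x]
    exact Finset.sum_congr rfl fun i _ => by rw [smul_eq_mul, mul_comm]
  have hfz : ∃ i s, f (z s) i ≠ 0 := by
    by_contra hcon
    push Not at hcon
    apply hz
    funext s
    have h1 : f (z s) = 0 := funext fun i => hcon i s
    rw [← map_zero f] at h1
    exact hfinj h1
  refine no_conf y ?_ ⟨N, fun i s => f (z s) i, hfz, ?_, ?_⟩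
  · by_contra hcon
    push Not at hcon
    apply hl
    apply LinearMap.ext
    intro x
    rw [hly, LinearMap.zero_apply]
    exact Finset.sum_eq_zero fun i _ => by rw [hcon i, zero_mul]
  · have h1 : ∑ s, phi (f (z s)) = 0 := by
      simp only [hf]
      simpa only [copies, QuadraticMap.pi_apply] using hiso
    refine Eq.trans ?_ h1
    simp only [phi_apply, Finset.mul_sum]
    rw [Finset.sum_comm]
    exact Finset.sum_congr rfl fun s _ => Finset.sum_congr rfl fun i _ => by
      simp only [wt, tt]
      ring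
  · intro s
    rw [← hly]
    exact hle ⟨z s, rfl⟩

theorem minimalWeaklyIsotropic_phi : MinimalWeaklyIsotropic phi :=
  ⟨regular_phi, weaklyIsotropic_phi, minimal_phi⟩

/-- The rational function field `ℚ(v)(u)(X)(Z)` in four variables has `w`-invariant greater than
three. -/
theorem three_lt_wInvariant : 3 < wInvariant F4 := by
  have h : (4 : ℕ∞) ≤ wInvariant F4 := le_sSup ⟨4, phi, minimalWeaklyIsotropic_phi, by norm_num⟩
  exact lt_of_lt_of_le (by norm_num) h

/-- There is a field of characteristic not `2` whose `w`-invariant is greater than three, namely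
the rational function field `ℚ(v)(u)(X)(Z)` in four variables over the rational numbers. -/
theorem result : ∃ (K : Type) (_ : Field K), (2 : K) ≠ 0 ∧ 3 < wInvariant K :=
  ⟨F4, inferInstance, two_ne, three_lt_wInvariant⟩

end Pool.Agent.Results.MP_2416ca_nt.WInvariantAboveThree
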